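import Pool.Agent.MP_61130f_an.Mg.Main

namespace Pool.Agent.Results.MP_61130f_an.CoinRigidity

open Pool.Agent.MP_61130f_an MeasureTheory

theorem result (γ : ℝ → ℂ) (L d : ℝ) (h : IsOval γ L) (hd : 0 < d) :
    (∃ (z : ℂ) (r : ℝ), ∀ s, ‖γ s - z‖ = r) ↔
      ∃ a > 0, ∀ O : Set (ℝ × ℝ), IsOpen O → O.Nonempty → O ⊆ Low a →
        volume (O ∩ ⋃₀ {C | IsLeaf γ L d C}) ≠ 0 :=
  (main h hd).2.out 0 2

end Pool.Agent.Results.MP_61130f_an.CoinRigidity
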