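import Pool.Agent.MP_61130f_an.G10.Down

namespace Pool.Agent.Results.MP_61130f_an.TallCoins

open Pool.Agent.MP_61130f_an

theorem result (γ : ℝ → ℂ) (L : ℝ) (h : IsOval γ L) :
    (∀ d₀ : ℝ, ∃ d, d₀ ≤ d ∧ ∃ C, IsLeaf γ L d C) ↔
      ∃ α : ℝ, ∀ s : ℝ, ∃ u : ℝ, Bil γ L (s, α) (u, α) :=
  gmain h

end Pool.Agent.Results.MP_61130f_an.TallCoins
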